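import Pool.Agent.H78.STN.Stmts2

set_option autoImplicit false

open Finset

namespace Pool.STN

theorem rot_step (g : ℕ → ℕ) (m k : ℕ) (h : g^[k] m = m) : lm g (g m) k = lm g m k := by
  have hk : ∀ j, g^[j + k] m = g^[j] m := by
    intro j
    rw [Function.iterate_add_apply, h]
  have key : ∀ f : ℕ → ℕ, f k = f 0 → ∑ j ∈ range k, f (j + 1) = ∑ j ∈ range k, f j := by
    intro f hf
    have h1 := Finset.sum_range_succ' f k
    have h2 := Finset.sum_range_succ f k
    omega
  have e : ∀ j, g^[j] (g m) = g^[j + 1] m := fun j => rfl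
  unfold lm
  rw [Finset.card_filter, Finset.card_filter]
  simp only [e]
  refine key (fun j => if g^[j + 1] m < g^[j] m ∧ g^[j + 1] m < g^[j + 2] m then 1 else 0) ?_
  have h0 := hk 0
  have h1 := hk 1
  have h2 := hk 2
  rw [zero_add] at h0
  rw [add_comm] at h1 h2
  simp only [zero_add]
  rw [h0, h1, h2]

theorem ROT_thm : ROTStmt := by
  intro g m k i h
  have hp : ∀ i, g^[k] (g^[i] m) = g^[i] m := by
    intro i
    rw [← Function.iterate_add_apply, add_comm, Function.iterate_add_apply, h]
  refine ⟨hp i, ?_⟩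
  induction i with
  | zero => rfl
  | succ i ih =>
    rw [Function.iterate_succ_apply', rot_step g _ k (hp i), ih]

end Pool.STN
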